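import Mathlib

/-!
# Linear programs with registers and a stack: definitions
-/

set_option autoImplicit false

namespace Pool.Agent.W896.LP

/-- The steps of a linear program over the field `F` with the inputs `ι`, the outputs `ω` and the
registers `ρ`. Let `v` be the contents of the registers. `read i M b` changes it into `M v + b x`,
where `x` is the input `i`; `write o c` writes the value `c v` for the output `o`; `push c` puts the
value `c v` on the stack; `pop M b` removes the value `a` on the top of the stack and changes the
contents of the registers into `M v + b a` (if the stack is empty then the program stops). -/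
inductive Ins (F ι ω ρ : Type) where
  | read (i : ι) (M : ρ → ρ → F) (b : ρ → F)
  | write (o : ω) (c : ρ → F)
  | push (c : ρ → F)
  | pop (M : ρ → ρ → F) (b : ρ → F)

variable {F ι ω ρ : Type} [Field F] [Fintype ρ]

/-- A linear combination of linear forms; a linear form is given by its coefficients. -/
def comb (c : ρ → F) (v : ρ → ι → F) : ι → F := fun i => ∑ r, c r * v r i

/-- New contents of the registers. -/
def upd (M : ρ → ρ → F) (b : ρ → F) (v : ρ → ι → F) (f : ι → F) : ρ → ι → F :=
  fun r i => ∑ r', M r r' * v r' i + b r * f i

/-- The reads (`inl i`) and writes (`inr (o, f)`, where `f` is the linear form which is written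
for the output `o`) of the program, started with the linear forms `v` in the registers and `σ` on
the stack. -/
def evs [DecidableEq ι] : List (Ins F ι ω ρ) → (ρ → ι → F) → List (ι → F) →
    List (ι ⊕ (ω × (ι → F)))
  | [], _, _ => []
  | .read i M b :: P, v, σ => .inl i :: evs P (upd M b v (Pi.single i 1)) σ
  | .write o c :: P, v, σ => .inr (o, comb c v) :: evs P v σ
  | .push c :: P, v, σ => evs P v (comb c v :: σ)
  | .pop M b :: P, v, f :: σ => evs P (upd M b v f) σ
  | .pop _ _ :: _, _, [] => []

/-- The program, started with zeros in the registers and with the empty stack, makes at most `T`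
reads and writes, and for every output `o` it writes the linear form given by the row `o` of the
matrix `A`. -/
def Computes [DecidableEq ι] (P : List (Ins F ι ω ρ)) (A : ω → ι → F) (T : ℕ) : Prop :=
  (evs P (fun _ _ => 0) []).length ≤ T ∧ ∀ o, .inr (o, A o) ∈ evs P (fun _ _ => 0) []

end Pool.Agent.W896.LP
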