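import Pool.Agent.W896.LP.Main

/-!
# Linear programs with registers and a stack: the trade-off, final form
-/

set_option autoImplicit false
set_option maxHeartbeats 1000000

open Finset

namespace Pool.Agent.W896.LP

open Pool.Agent.W896.MO

universe u

/-- The matrix is hard: outside of any set `Q` of at most half of the columns any set `O` of rows
has rank at least half of the number of its elements. -/
def Reg {F : Type} [Field F] {n : ℕ} (A : Fin n → Fin n → F) : Prop :=
  ∀ (r : ℕ) (O Q : Finset (Fin n)) (g : Fin r → Fin n → F) (c : Fin n → Fin r → F),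
    2 * Q.card ≤ n → (∀ o ∈ O, ∀ i, i ∉ Q → A o i = ∑ j, c o j * g j i) → O.card ≤ 2 * r

variable {F : Type} [Field F] {n : ℕ}

open Classical in
/-- The outputs of one piece. -/
theorem piece_out {A : Fin n → Fin n → F} (hA : Reg A) {S a : ℕ} (ha : 1 ≤ a) (han : 8 * a ≤ n)
    {l : List (Option (Fin n ⊕ (Fin n × (Fin n → F))))}
    (h : Piece (toQP F (Fin n) (Fin n) (Fin S)) (fun _ => ()) a l) :
    (univ.filter (fun o => some (.inr (o, A o)) ∈ l)).card ≤ 10 * S := by
  obtain ⟨q, p, H, e, hder, hwt, hHl⟩ := h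
  have hlen : l.length ≤ 4 * a := (len_le_wt ha l).trans hwt
  have hcnt : nn l ≤ 4 := by
    have h12 := nn_wt a l
    have h13 : nn l * a ≤ 4 * a := by omega
    exact Nat.le_of_mul_le_mul_right h13 (by omega)
  -- the holes
  obtain ⟨Hs, hHs⟩ : ∃ Hs : Finset ℕ, Hs = (range l.length).filter (fun c => l[c]? = some none) :=
    ⟨_, rfl⟩
  have hHc : Hs.card ≤ 4 := by rw [hHs, card_nn]; exact hcnt
  obtain ⟨Q, hQ⟩ : ∃ Q : Finset (Fin n), Q = univ.filter (fun i => some (.inl i) ∈ l) := ⟨_, rfl⟩
  have hQc : Q.card ≤ l.length := by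
    have h3 : Q.image (fun i => (some (.inl i) :
        Option (Fin n ⊕ (Fin n × (Fin n → F))))) ⊆ l.toFinset := by
      intro e he
      rw [mem_image] at he
      obtain ⟨k, hk, rfl⟩ := he
      rw [hQ, mem_filter] at hk
      exact List.mem_toFinset.2 hk.2
    have h4 := card_le_card h3
    rw [card_image_of_injective _ (fun k k' h => by simpa using h)] at h4
    exact h4.trans (List.toFinset_card_le l)
  -- the registers
  obtain ⟨g₀, hg₀⟩ : ∃ g₀ : Option {c : ℕ // c ∈ Hs} × Fin S → Fin n → F, ∀ j, g₀ j =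
      match j.1 with
      | none => q.2 j.2
      | some c => (match H c.1 with
        | some u => u.2.2 j.2
        | none => 0) := ⟨_, fun _ => rfl⟩
  have hcard : Fintype.card (Option {c : ℕ // c ∈ Hs} × Fin S) ≤ 5 * S := by
    rw [Fintype.card_prod, Fintype.card_option, Fintype.card_coe, Fintype.card_fin]
    exact Nat.mul_le_mul_right _ (by omega)
  obtain ⟨r, hr⟩ : ∃ r, r = Fintype.card (Option {c : ℕ // c ∈ Hs} × Fin S) := ⟨_, rfl⟩
  obtain ⟨φ⟩ : Nonempty (Fin r ≃ Option {c : ℕ // c ∈ Hs} × Fin S) := by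
    rw [hr]
    exact ⟨(Fintype.equivFin _).symm⟩
  obtain ⟨g, hg⟩ : ∃ g : Fin r → Fin n → F, ∀ j, g j = g₀ (φ j) := ⟨_, fun _ => rfl⟩
  obtain ⟨res, hres⟩ : ∃ res : (Fin n → F) →ₗ[F] ({i : Fin n // i ∉ Q} → F),
      ∀ f i, res f i = f i.1 := ⟨LinearMap.funLeft F F Subtype.val, fun _ _ => rfl⟩
  obtain ⟨W, hW⟩ : ∃ W : Submodule F (Fin n → F), W =
      (Submodule.span F (Set.range (fun j => res (g j)))).comap res := ⟨_, rfl⟩
  have hgW : ∀ j, g₀ j ∈ W := by
    intro j
    rw [hW, Submodule.mem_comap]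
    apply Submodule.subset_span
    refine ⟨φ.symm j, ?_⟩
    simp only
    rw [hg, Equiv.apply_symm_apply]
  have hspan := span_der W hder (by
    intro c e' p' hc r'
    have h1 := hHl c (by rw [hc]; simp)
    have h2 : c ∈ Hs := by
      rw [hHs, mem_filter, mem_range]
      refine ⟨?_, h1⟩
      by_contra h3
      rw [List.getElem?_eq_none (by omega)] at h1
      simp at h1
    have h3 := hgW (some ⟨c, h2⟩, r')
    rw [hg₀] at h3
    simp only [hc] at h3
    exact h3) (by
    intro r'
    have h3 := hgW (none, r')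
    rw [hg₀] at h3
    exact h3) (by
    intro i hi
    rw [hW, Submodule.mem_comap]
    have h4 : res (Pi.single i 1) = 0 := by
      funext i'
      rw [hres]
      have h5 : i'.1 ≠ i := by
        intro h6
        apply i'.2
        rw [h6, hQ, mem_filter]
        exact ⟨mem_univ _, hi⟩
      rw [Pi.single_eq_of_ne h5]
      rfl
    rw [h4]
    exact Submodule.zero_mem _)
  have hex : ∀ o, ∃ c : Fin r → F, some (.inr (o, A o)) ∈ l → ∀ i, i ∉ Q →
      A o i = ∑ j, c j * g j i := by
    intro o
    by_cases ho : some (.inr (o, A o)) ∈ l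
    · have h4 := hspan.2 o (A o) ho
      rw [hW, Submodule.mem_comap, Submodule.mem_span_range_iff_exists_fun] at h4
      obtain ⟨c, hc⟩ := h4
      refine ⟨c, fun _ i hi => ?_⟩
      have h5 := congrFun hc ⟨i, hi⟩
      rw [hres, Finset.sum_apply] at h5
      rw [← h5]
      refine sum_congr rfl (fun j _ => ?_)
      rw [Pi.smul_apply, smul_eq_mul, hres]
    · exact ⟨fun _ => 0, fun h => absurd h ho⟩
  choose c hc using hex
  have hfin := hA r (univ.filter (fun o => some (.inr (o, A o)) ∈ l)) Q g c (by omega)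
    (fun o ho i hi => hc o (mem_filter.1 ho).2 i hi)
  omega

/-- **The trade-off for linear programs with a stack.** -/
theorem lin_main {A : Fin n → Fin n → F} (hA : Reg A) {S T : ℕ} (hS : 1 ≤ S)
    (P : List (Ins F (Fin n) (Fin n) (Fin S))) (h : Computes P A T) :
    n ^ 2 ≤ 320 * S * T := by
  classical
  obtain ⟨hT, hout⟩ := h
  obtain ⟨l, hl⟩ : ∃ l, l = evs P (fun _ _ => 0) [] := ⟨_, rfl⟩
  rw [← hl] at hT hout
  have hnT : n ≤ T := by
    refine le_trans ?_ hT
    have h5 : (univ : Finset (Fin n)).image (fun o => (.inr (o, A o) :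
        Fin n ⊕ (Fin n × (Fin n → F)))) ⊆ l.toFinset := by
      intro e he
      rw [mem_image] at he
      obtain ⟨o, -, rfl⟩ := he
      exact List.mem_toFinset.2 (hout o)
    have h6 := card_le_card h5
    rw [card_image_of_injective _ (fun o o' h => by
      simp only [Sum.inr.injEq, Prod.mk.injEq] at h; exact h.1), card_univ,
      Fintype.card_fin] at h6
    exact h6.trans (List.toFinset_card_le l)
  rcases Nat.lt_or_ge n 8 with hn | hn
  · calc n ^ 2 = n * n := by ring
      _ ≤ 320 * S * T := Nat.mul_le_mul (by omega) hnT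
  obtain ⟨a, ha⟩ : ∃ a, a = n / 8 := ⟨_, rfl⟩
  have ha1 : 1 ≤ a := by omega
  have hdec := decS_evs P (fun _ _ => (0 : F)) ([] : List (Fin n → F))
  rw [← hl] at hdec
  obtain ⟨p, hret⟩ := hdec
  obtain ⟨e, hder⟩ := hret.toDer 0
  have hw : ∀ l : List (Fin n ⊕ (Fin n × (Fin n → F))), wt a (l.map some) = l.length := by
    intro l
    induction l with
    | nil => rfl
    | cons b l ih => simp only [List.map_cons, wt, List.length_cons, ih]; omega
  obtain ⟨L, b1, b2, b3, b4, b5⟩ := pieces ha1 (wt a (l.map some)) (fun _ => none) _ p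
    (l.map some) e le_rfl hder (fun c hc => absurd rfl hc)
  rw [hw] at b5
  have hsub : (univ : Finset (Fin n)) ⊆ L.toFinset.biUnion
      (fun l' => univ.filter (fun o => some (.inr (o, A o)) ∈ l')) := by
    intro o _
    obtain ⟨l', h8, h9⟩ := b4 _ (List.mem_map_of_mem (f := some) (hout o))
    rw [mem_biUnion]
    exact ⟨l', List.mem_toFinset.2 h8, mem_filter.2 ⟨mem_univ _, h9⟩⟩
  have hn2 : n ≤ L.length * (10 * S) := by
    calc n = (univ : Finset (Fin n)).card := by rw [card_univ, Fintype.card_fin]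
      _ ≤ ∑ l' ∈ L.toFinset, (univ.filter (fun o => some (.inr (o, A o)) ∈ l')).card :=
          (card_le_card hsub).trans card_biUnion_le
      _ ≤ ∑ _l' ∈ L.toFinset, 10 * S := sum_le_sum (fun l' hl' =>
          piece_out hA ha1 (by omega) (b1 l' (List.mem_toFinset.1 hl')))
      _ = L.toFinset.card * (10 * S) := by rw [sum_const, smul_eq_mul]
      _ ≤ _ := Nat.mul_le_mul_right _ (List.toFinset_card_le L)
  calc n ^ 2 = n * n := by ring
    _ ≤ (16 * a) * (L.length * (10 * S)) := Nat.mul_le_mul (by omega) hn2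
    _ = 160 * S * (L.length * a) := by ring
    _ ≤ 160 * S * (T + a) := Nat.mul_le_mul_left _ (by omega)
    _ ≤ 160 * S * (T + T) := Nat.mul_le_mul_left _ (by omega)
    _ = 320 * S * T := by ring

end Pool.Agent.W896.LP
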