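import Pool.Agent.W896.LP.Defs
import Pool.Agent.W896.MO.Pieces

/-!
# Linear programs with registers and a stack: the trade-off
-/

set_option autoImplicit false
set_option maxHeartbeats 1000000

open Finset

namespace Pool.Agent.W896.LP

open Pool.Agent.W896.MO

variable {F ι ω ρ : Type} [Field F] [Fintype ρ] [DecidableEq ι]

/-- The program as a pushdown program. -/
def toQP (F ι ω ρ : Type) [Field F] [Fintype ρ] [DecidableEq ι] :
    QP (ι ⊕ (ω × (ι → F))) Unit where
  State := List (Ins F ι ω ρ) × (ρ → ι → F)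
  Sym := ι → F
  act s := match s.1 with
    | [] => .halt
    | .read i M b :: P => .query (.inl i) (fun _ => (P, upd M b s.2 (Pi.single i 1)))
    | .write o c :: P => .query (.inr (o, comb c s.2)) (fun _ => (P, s.2))
    | .push c :: P => .push (comb c s.2) (P, s.2)
    | .pop M b :: P => .pop (fun f => (P, upd M b s.2 f))

/-- The computation with a stack, decomposed according to the stack. -/
def DecS {κ : Type} (P : QP κ Unit) (x : κ → Unit) : List P.Sym → P.State → List κ → Prop
  | [], q, l => ∃ p, Ret P x q l p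
  | a :: σ, q, l => (∃ p, Ret P x q l p ∧ P.act p = QAct.halt) ∨
      ∃ l₁ p nxt l₂, Ret P x q l₁ p ∧ P.act p = QAct.pop nxt ∧ DecS P x σ (nxt a) l₂ ∧ l = l₁ ++ l₂

theorem DecS.ofHalt {κ : Type} {P : QP κ Unit} {x : κ → Unit} {σ : List P.Sym} {q p : P.State}
    {l : List κ} (h : Ret P x q l p) (hb : P.act p = QAct.halt) : DecS P x σ q l := by
  cases σ with
  | nil => exact ⟨p, h⟩
  | cons a σ => exact Or.inl ⟨p, h, hb⟩

theorem DecS.cons {κ : Type} {P : QP κ Unit} {x : κ → Unit} {σ : List P.Sym} {q q' p₁ : P.State}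
    {l₁ l₂ : List κ} {a : P.Sym} {nxt : P.Sym → P.State} (h : P.act q = QAct.push a q')
    (r₁ : Ret P x q' l₁ p₁) (h₁ : P.act p₁ = QAct.pop nxt) (d : DecS P x σ (nxt a) l₂) :
    DecS P x σ q (l₁ ++ l₂) := by
  cases σ with
  | nil =>
    obtain ⟨p, h2⟩ := d
    exact ⟨p, Ret.cont h r₁ h₁ h2⟩
  | cons a' σ =>
    rcases d with ⟨p, h2, h3⟩ | ⟨l₃, p, nxt', l₄, h2, h3, h4, h5⟩
    · exact Or.inl ⟨p, Ret.cont h r₁ h₁ h2, h3⟩
    · refine Or.inr ⟨l₁ ++ l₃, p, nxt', l₄, Ret.cont h r₁ h₁ h2, h3, h4, ?_⟩
      rw [h5, List.append_assoc]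

theorem DecS.query {κ : Type} {P : QP κ Unit} {x : κ → Unit} {σ : List P.Sym} {q : P.State}
    {l : List κ} {i : κ} {nxt : Unit → P.State} (h : P.act q = QAct.query i nxt)
    (d : DecS P x σ (nxt (x i)) l) : DecS P x σ q (i :: l) := by
  cases σ with
  | nil =>
    obtain ⟨p, h2⟩ := d
    exact ⟨p, Ret.query h h2⟩
  | cons a σ =>
    rcases d with ⟨p, h2, h3⟩ | ⟨l₃, p, nxt', l₄, h2, h3, h4, h5⟩
    · exact Or.inl ⟨p, Ret.query h h2, h3⟩
    · exact Or.inr ⟨i :: l₃, p, nxt', l₄, Ret.query h h2, h3, h4, by rw [h5]; rfl⟩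

theorem decS_evs (P : List (Ins F ι ω ρ)) : ∀ (v : ρ → ι → F) (σ : List (ι → F)),
    DecS (toQP F ι ω ρ) (fun _ => ()) σ (P, v) (evs P v σ) := by
  induction P with
  | nil =>
    intro v σ
    exact DecS.ofHalt (p := ([], v)) (Ret.stop (Or.inr rfl)) rfl
  | cons s P ih =>
    intro v σ
    cases s with
    | read i M b => exact DecS.query (P := toQP F ι ω ρ) rfl (ih _ σ)
    | write o c => exact DecS.query (P := toQP F ι ω ρ) rfl (ih _ σ)
    | push c =>
      rcases ih v (comb c v :: σ) with ⟨p, h2, h3⟩ | ⟨l₃, p, nxt', l₄, h2, h3, h4, h5⟩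
      · exact DecS.ofHalt (Ret.halt (q := (.push c :: P, v)) rfl h2 h3) h3
      · change DecS (toQP F ι ω ρ) (fun _ => ()) σ (.push c :: P, v) (evs P v (comb c v :: σ))
        rw [h5]
        exact DecS.cons (q := (.push c :: P, v)) rfl h2 h3 h4
    | pop M b =>
      cases σ with
      | nil =>
        exact ⟨(.pop M b :: P, v), Ret.stop (Or.inl ⟨_, rfl⟩)⟩
      | cons f σ =>
        exact Or.inr ⟨[], (.pop M b :: P, v), _, _, Ret.stop (Or.inl ⟨_, rfl⟩), rfl, ih _ σ, rfl⟩

/-- The forms in a derivation are in the span of few forms. -/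
theorem span_der (W : Submodule F (ι → F)) {H : ℕ → Option ((toQP F ι ω ρ).State ×
    (toQP F ι ω ρ).State)} {x : (ι ⊕ (ω × (ι → F))) → Unit} {q p : (toQP F ι ω ρ).State}
    {c c' : ℕ} {l : List (Option (ι ⊕ (ω × (ι → F))))}
    (h : Der (toQP F ι ω ρ) H x q c l p c') (hH : ∀ c e p', H c = some (e, p') → ∀ r, p'.2 r ∈ W) :
    (∀ r, q.2 r ∈ W) → (∀ i, some (.inl i) ∈ l → (Pi.single i 1 : ι → F) ∈ W) →
    (∀ r, p.2 r ∈ W) ∧ ∀ o f, some (.inr (o, f)) ∈ l → f ∈ W := by
  have hcomb : ∀ (c : ρ → F) (v : ρ → ι → F), (∀ r, v r ∈ W) → comb c v ∈ W := by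
    intro c v hv
    have e : comb c v = ∑ r, c r • v r := by
      funext i
      simp only [comb, Finset.sum_apply, Pi.smul_apply, smul_eq_mul]
    rw [e]
    exact Submodule.sum_mem _ (fun r _ => Submodule.smul_mem _ _ (hv r))
  have hupd : ∀ (M : ρ → ρ → F) (b : ρ → F) (v : ρ → ι → F) (f : ι → F), (∀ r, v r ∈ W) →
      f ∈ W → ∀ r, upd M b v f r ∈ W := by
    intro M b v f hv hf r
    have e : upd M b v f r = comb (M r) v + b r • f := by
      funext i
      simp only [upd, comb, Pi.add_apply, Pi.smul_apply, smul_eq_mul]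
    rw [e]
    exact Submodule.add_mem _ (hcomb _ _ hv) (Submodule.smul_mem _ _ hf)
  induction h with
  | @hole q c p h =>
    intro _ _
    exact ⟨hH _ _ _ h, fun o f hf => by simp at hf⟩
  | stop _ _ =>
    intro hq _
    exact ⟨hq, fun o f hf => by simp at hf⟩
  | @query q c i nxt l p c' hf h r ih =>
    intro hq hl
    obtain ⟨P, v⟩ := q
    cases P with
    | nil => simp [toQP] at h
    | cons s P =>
      cases s with
      | read j M b =>
        have h' : (QAct.query (.inl j) (fun _ => (P, upd M b v (Pi.single j 1))) :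
          QAct (ι ⊕ (ω × (ι → F))) Unit (toQP F ι ω ρ).State (toQP F ι ω ρ).Sym) =
            QAct.query i nxt := h
        simp only [QAct.query.injEq] at h'
        obtain ⟨rfl, rfl⟩ := h'
        have h2 := ih (hupd M b v _ hq (hl j List.mem_cons_self))
          (fun i hi => hl i (List.mem_cons_of_mem _ hi))
        refine ⟨h2.1, fun o f hf => ?_⟩
        rcases List.mem_cons.1 hf with h3 | h3
        · simp at h3
        · exact h2.2 o f h3
      | write o c₁ =>
        have h' : (QAct.query (.inr (o, comb c₁ v)) (fun _ => (P, v)) :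
          QAct (ι ⊕ (ω × (ι → F))) Unit (toQP F ι ω ρ).State (toQP F ι ω ρ).Sym) =
            QAct.query i nxt := h
        simp only [QAct.query.injEq] at h'
        obtain ⟨rfl, rfl⟩ := h'
        have h2 := ih hq (fun i hi => hl i (List.mem_cons_of_mem _ hi))
        refine ⟨h2.1, fun o' f hf => ?_⟩
        rcases List.mem_cons.1 hf with h3 | h3
        · simp only [Option.some.injEq, Sum.inr.injEq, Prod.mk.injEq] at h3
          rw [h3.2]
          exact hcomb _ _ hq
        · exact h2.2 o' f h3
      | push c₁ => simp [toQP] at h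
      | pop M b => simp [toQP] at h
  | @cont q c a q' l₁ l₂ p₁ p nxt c₁ c' hf h r₁ h₁ r₂ ih1 ih2 =>
    intro hq hl
    obtain ⟨P, v⟩ := q
    obtain ⟨P₁, v₁⟩ := p₁
    cases P with
    | nil => simp [toQP] at h
    | cons s P =>
      cases s with
      | read j M b => simp [toQP] at h
      | write o c₁ => simp [toQP] at h
      | pop M b => simp [toQP] at h
      | push cc =>
        have h' : (QAct.push (comb cc v) (P, v) :
          QAct (ι ⊕ (ω × (ι → F))) Unit (toQP F ι ω ρ).State (toQP F ι ω ρ).Sym) =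
            QAct.push a q' := h
        simp only [QAct.push.injEq] at h'
        obtain ⟨rfl, rfl⟩ := h'
        have a1 := ih1 hq (fun i hi => hl i (List.mem_append_left _ hi))
        cases P₁ with
        | nil => simp [toQP] at h₁
        | cons s₁ P₁ =>
          cases s₁ with
          | read j M b => simp [toQP] at h₁
          | write o c₁ => simp [toQP] at h₁
          | push c₁ => simp [toQP] at h₁
          | pop M b =>
            have h'' : (QAct.pop (fun f => (P₁, upd M b v₁ f)) :
              QAct (ι ⊕ (ω × (ι → F))) Unit (toQP F ι ω ρ).State (toQP F ι ω ρ).Sym) =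
                QAct.pop nxt := h₁
            simp only [QAct.pop.injEq] at h''
            subst h''
            have a2 := ih2 (hupd M b v₁ _ a1.1 (hcomb _ _ hq))
              (fun i hi => hl i (List.mem_append_right _ hi))
            refine ⟨a2.1, fun o f hf => ?_⟩
            rcases List.mem_append.1 hf with h3 | h3
            · exact a1.2 o f h3
            · exact a2.2 o f h3
  | @halt q c a q' l p c' hf h r h₁ ih =>
    intro hq hl
    obtain ⟨P, v⟩ := q
    cases P with
    | nil => simp [toQP] at h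
    | cons s P =>
      cases s with
      | read j M b => simp [toQP] at h
      | write o c₁ => simp [toQP] at h
      | pop M b => simp [toQP] at h
      | push cc =>
        have h' : (QAct.push (comb cc v) (P, v) :
          QAct (ι ⊕ (ω × (ι → F))) Unit (toQP F ι ω ρ).State (toQP F ι ω ρ).Sym) =
            QAct.push a q' := h
        simp only [QAct.push.injEq] at h'
        obtain ⟨rfl, rfl⟩ := h'
        exact ih hq hl

end Pool.Agent.W896.LP
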