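import Pool.Agent.W896.LP.Final
import Pool.Agent.W946.LcEx

/-!
# Explicit hard matrices: Hilbert matrices and complex Hadamard matrices
-/

set_option autoImplicit false
set_option maxHeartbeats 1000000

open Finset

namespace Pool.Agent.W896.LP

open Pool.Agent.W946.Lc

variable {F : Type} [Field F] {n : ℕ}

/-- Matrices with the strongest uncertainty principle are hard. -/
theorem reg_of_uncertainty (A : Matrix (Fin n) (Fin n) F)
    (h : ∀ y : Fin n → F, y ≠ 0 → n + 1 ≤ wt y + wt (Matrix.vecMul y A)) : Reg (fun i j => A i j) := by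
  classical
  intro r O Q g c hQ hrow'
  have hrow : ∀ o ∈ O, ∀ i, i ∉ Q → A o i = ∑ j, c o j * g j i := hrow'
  by_contra hcon
  push Not at hcon
  have hOn : O.card ≤ n := by
    have := card_le_univ O
    rwa [Fintype.card_fin] at this
  obtain ⟨O', hO', hOc⟩ := exists_subset_card_eq (s := O) (n := r + 1) (by omega)
  obtain ⟨f, hf⟩ : ∃ f : ({o : Fin n // o ∈ O'} → F) →ₗ[F] (Fin r → F),
      ∀ v j, f v j = ∑ o, v o * c o.1 j := by
    refine ⟨{ toFun := fun v j => ∑ o, v o * c o.1 j, map_add' := ?_, map_smul' := ?_ }, ?_⟩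
    · intro v v'
      funext j
      simp only [Pi.add_apply, add_mul, sum_add_distrib]
    · intro a v
      funext j
      simp only [Pi.smul_apply, smul_eq_mul, RingHom.id_apply, mul_sum, mul_assoc]
    · intro v j; rfl
  have hker := LinearMap.ker_ne_bot_of_finrank_lt (f := f) (by
    rw [Module.finrank_fintype_fun_eq_card, Module.finrank_fintype_fun_eq_card, Fintype.card_coe,
      Fintype.card_fin]
    omega)
  obtain ⟨v, hv, hv0⟩ := (Submodule.ne_bot_iff _).1 hker
  rw [LinearMap.mem_ker] at hv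
  obtain ⟨y, hy⟩ : ∃ y : Fin n → F, ∀ o, y o = if h : o ∈ O' then v ⟨o, h⟩ else 0 :=
    ⟨_, fun _ => rfl⟩
  have hy0 : y ≠ 0 := by
    intro h0
    apply hv0
    funext o
    have := congrFun h0 o.1
    rw [hy, dif_pos o.2] at this
    exact this
  have hwy : wt y ≤ r + 1 := by
    rw [wt_eq, ← hOc]
    apply card_le_card
    intro o ho
    rw [mem_filter] at ho
    by_contra hno
    apply ho.2
    rw [hy, dif_neg hno]
  have hvan : ∀ i, i ∉ Q → Matrix.vecMul y A i = 0 := by
    intro i hi
    have e5 : Matrix.vecMul y A i = ∑ o ∈ O', y o * A o i := by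
      change ∑ o, y o * A o i = _
      symm
      apply sum_subset (subset_univ _)
      intro o _ ho
      rw [hy, dif_neg ho, zero_mul]
    rw [e5, Finset.sum_subtype O' (fun _ => Iff.rfl)]
    have e6 : ∀ o : {o : Fin n // o ∈ O'}, y o.1 * A o.1 i = ∑ j, v o * c o.1 j * g j i := by
      intro o
      rw [hy, dif_pos o.2, hrow o.1 (hO' o.2) i hi, mul_sum]
      exact sum_congr rfl (fun j _ => by ring)
    rw [sum_congr rfl (fun o _ => e6 o), sum_comm]
    apply sum_eq_zero
    intro j _
    rw [← sum_mul, ← hf, hv, Pi.zero_apply, zero_mul]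
  have hwA : wt (Matrix.vecMul y A) ≤ Q.card := by
    rw [wt_eq]
    apply card_le_card
    intro i hi
    rw [mem_filter] at hi
    by_contra hno
    exact hi.2 (hvan i hno)
  have := h y hy0
  omega

/-- Hilbert matrices are hard. -/
theorem reg_hilbert [CharZero F] (n : ℕ) : Reg (fun i j => hilbert F n i j) := by
  refine reg_of_uncertainty _ (fun y hy => ?_)
  rw [hilbert_vecMul]
  exact hilbert_uncertainty hy

open scoped ComplexConjugate InnerProductSpace

/-- Complex Hadamard matrices are hard. -/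
theorem reg_hadamard (A : Matrix (Fin n) (Fin n) ℂ) (hA : IsComplexHadamard A) :
    Reg (fun i j => A i j) := by
  classical
  intro r O Q g c hQ hrow
  obtain ⟨b, hb⟩ : ∃ b : Fin n → EuclideanSpace ℂ {o : Fin n // o ∈ O}, ∀ i o, b i o = A o.1 i :=
    ⟨fun i => WithLp.toLp 2 (fun o => A o.1 i), fun _ _ => rfl⟩
  obtain ⟨d, hd⟩ : ∃ d : Fin r → EuclideanSpace ℂ {o : Fin n // o ∈ O}, ∀ j o, d j o = c o.1 j :=
    ⟨fun j => WithLp.toLp 2 (fun o => c o.1 j), fun _ _ => rfl⟩
  obtain ⟨V, hV⟩ : ∃ V : Submodule ℂ (EuclideanSpace ℂ {o : Fin n // o ∈ O}),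
      V = Submodule.span ℂ (Set.range d) := ⟨_, rfl⟩
  have hVr : Module.finrank ℂ V ≤ r := by
    have h1 := finrank_range_le_card (R := ℂ) d
    rw [Fintype.card_fin] at h1
    rw [hV]
    exact h1
  have hbV : ∀ i, i ∉ Q → b i ∈ V := by
    intro i hi
    have e : b i = ∑ j, g j i • d j := by
      ext o
      rw [hb]
      have h1 := hrow o.1 o.2 i hi
      simp only at h1
      have h2 : (∑ j, g j i • d j) o = ∑ j, (g j i • d j) o := by
        simp only [WithLp.ofLp_sum, Finset.sum_apply]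
      rw [h1, h2]
      refine sum_congr rfl (fun j _ => ?_)
      rw [PiLp.smul_apply, smul_eq_mul, hd, mul_comm]
    rw [e, hV]
    exact Submodule.sum_mem _ (fun j _ => Submodule.smul_mem _ _
      (Submodule.subset_span ⟨j, rfl⟩))
  have hAA : ∀ o o' : Fin n, ∑ i, A o i * conj (A o' i) = if o = o' then (n : ℂ) else 0 := by
    intro o o'
    have h1 := congrFun (congrFun hA.2 o) o'
    rw [Matrix.mul_apply] at h1
    simp only [Matrix.conjTranspose_apply, Matrix.smul_apply, Matrix.one_apply, smul_eq_mul,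
      mul_ite, mul_one, mul_zero] at h1
    exact h1
  -- the norm of a vector
  have hnorm : ∀ v : EuclideanSpace ℂ {o : Fin n // o ∈ O},
      ∑ i, ‖⟪v, b i⟫_ℂ‖ ^ 2 = n * ‖v‖ ^ 2 := by
    intro v
    have hin : ∀ i, ⟪v, b i⟫_ℂ = ∑ o, conj (v o) * A o.1 i := by
      intro i
      rw [PiLp.inner_apply]
      refine sum_congr rfl (fun o _ => ?_)
      rw [hb, RCLike.inner_apply, mul_comm]
    have hc : (((∑ i, ‖⟪v, b i⟫_ℂ‖ ^ 2 : ℝ)) : ℂ) = ((n * ‖v‖ ^ 2 : ℝ) : ℂ) := by
      rw [Complex.ofReal_sum]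
      have e1 : ∀ i, ((‖⟪v, b i⟫_ℂ‖ ^ 2 : ℝ) : ℂ) =
          ∑ o : {o : Fin n // o ∈ O}, ∑ o' : {o : Fin n // o ∈ O},
            (conj (v o) * v o') * (A o.1 i * conj (A o'.1 i)) := by
        intro i
        rw [Complex.ofReal_pow, ← Complex.mul_conj', hin, map_sum, sum_mul_sum]
        refine sum_congr rfl (fun o _ => sum_congr rfl (fun o' _ => ?_))
        rw [map_mul, Complex.conj_conj]
        ring
      rw [sum_congr rfl (fun i _ => e1 i), sum_comm]
      have e2 : ∀ o : {o : Fin n // o ∈ O}, ∑ i, ∑ o' : {o : Fin n // o ∈ O},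
            (conj (v o) * v o') * (A o.1 i * conj (A o'.1 i)) = n * (conj (v o) * v o) := by
        intro o
        rw [sum_comm]
        have e3 : ∀ o' : {o : Fin n // o ∈ O}, ∑ i, (conj (v o) * v o') *
            (A o.1 i * conj (A o'.1 i)) = if o = o' then n * (conj (v o) * v o') else 0 := by
          intro o'
          rw [← mul_sum, hAA]
          by_cases ho : o = o'
          · rw [if_pos (congrArg Subtype.val ho), if_pos ho, mul_comm]
          · rw [if_neg (fun h => ho (Subtype.ext h)), if_neg ho, mul_zero]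
        rw [sum_congr rfl (fun o' _ => e3 o'), sum_ite_eq, if_pos (mem_univ _)]
      rw [sum_congr rfl (fun o _ => e2 o), ← mul_sum, EuclideanSpace.norm_sq_eq]
      push_cast
      congr 1
      refine sum_congr rfl (fun o _ => ?_)
      rw [mul_comm, Complex.mul_conj']
    exact_mod_cast hc
  obtain ⟨e, he⟩ : ∃ e : OrthonormalBasis (Fin (Module.finrank ℂ V)) ℂ V,
      e = stdOrthonormalBasis ℂ V := ⟨_, rfl⟩
  have hpars : ∀ i, i ∉ Q → (O.card : ℝ) = ∑ s, ‖⟪(e s : EuclideanSpace ℂ {o : Fin n // o ∈ O}),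
      b i⟫_ℂ‖ ^ 2 := by
    intro i hi
    have h1 := e.sum_sq_norm_inner_right ⟨b i, hbV i hi⟩
    have h2 : ‖(⟨b i, hbV i hi⟩ : V)‖ ^ 2 = (O.card : ℝ) := by
      change ‖b i‖ ^ 2 = _
      rw [EuclideanSpace.norm_sq_eq]
      have h3 : ∀ o : {o : Fin n // o ∈ O}, ‖b i o‖ ^ 2 = 1 := by
        intro o
        rw [hb, hA.1, one_pow]
      rw [sum_congr rfl (fun o _ => h3 o), sum_const, card_univ, Fintype.card_coe]
      simp
    rw [h2] at h1
    rw [← h1]
    rfl
  have hmain : ((n - Q.card : ℕ) : ℝ) * O.card ≤ r * n := by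
    calc ((n - Q.card : ℕ) : ℝ) * O.card = ∑ _i ∈ univ.filter (fun i => i ∉ Q), (O.card : ℝ) := by
          rw [sum_const, nsmul_eq_mul]
          congr 2
          have h1 := card_filter_add_card_filter_not (s := (univ : Finset (Fin n)))
            (fun i => i ∈ Q)
          rw [card_univ, Fintype.card_fin, filter_mem_eq_inter, univ_inter] at h1
          omega
      _ = ∑ i ∈ univ.filter (fun i => i ∉ Q), ∑ s,
          ‖⟪(e s : EuclideanSpace ℂ {o : Fin n // o ∈ O}), b i⟫_ℂ‖ ^ 2 :=
          sum_congr rfl (fun i hi => hpars i (mem_filter.1 hi).2)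
      _ ≤ ∑ i, ∑ s, ‖⟪(e s : EuclideanSpace ℂ {o : Fin n // o ∈ O}), b i⟫_ℂ‖ ^ 2 :=
          sum_le_sum_of_subset_of_nonneg (subset_univ _)
            (fun i _ _ => sum_nonneg (fun s _ => by positivity))
      _ = ∑ s, ∑ i, ‖⟪(e s : EuclideanSpace ℂ {o : Fin n // o ∈ O}), b i⟫_ℂ‖ ^ 2 := sum_comm
      _ = ∑ _s : Fin (Module.finrank ℂ V), (n : ℝ) := by
          refine sum_congr rfl (fun s _ => ?_)
          rw [hnorm]
          have h1 : ‖(e s : EuclideanSpace ℂ {o : Fin n // o ∈ O})‖ = 1 := by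
            have h2 := e.orthonormal.1 s
            exact h2
          rw [h1, one_pow, mul_one]
      _ = Module.finrank ℂ V * n := by
          rw [sum_const, card_univ, Fintype.card_fin, nsmul_eq_mul]
      _ ≤ r * n := by
          apply mul_le_mul_of_nonneg_right _ (Nat.cast_nonneg _)
          exact_mod_cast hVr
  have hN : (n - Q.card) * O.card ≤ r * n := by exact_mod_cast hmain
  rcases Nat.eq_zero_or_pos n with hn | hn
  · have := card_le_univ O
    rw [Fintype.card_fin] at this
    omega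
  · have h2 : n * O.card ≤ n * (2 * r) := by
      calc n * O.card ≤ (2 * (n - Q.card)) * O.card := Nat.mul_le_mul_right _ (by omega)
        _ = 2 * ((n - Q.card) * O.card) := by ring
        _ ≤ 2 * (r * n) := Nat.mul_le_mul_left _ hN
        _ = _ := by ring
    exact Nat.le_of_mul_le_mul_left h2 hn

end Pool.Agent.W896.LP
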